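import Pool.Agent.ConfStr48.Crossing

/-!
# With `b(p)` the set of all points of the drawing near `p`, every conflict graph is a string graph
-/

namespace Pool.Agent.Results.MP_b1730f_co.AllPointsSeen

open Pool.Agent.ConfStr48

/-- If `b(p)` is the set of all points of the drawing at distance less than `d` from `p`, then every
conflict graph of a plane drawing is a string graph; the same is true for drawings whose parts
(connected sets of segments) may cross each other. -/
theorem result : ∀ {V : Type} (G : SimpleGraph V),
    IsConflictGraphAll G ∨ IsConflictGraphParts G → IsStringGraph G :=
  fun _ hG => hG.elim isStringGraph_of_all isStringGraph_of_parts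

end Pool.Agent.Results.MP_b1730f_co.AllPointsSeen
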