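import Pool.Agent.ConfStr48.NonString
import Pool.Agent.ConfStr48.Drawing

/-!
# A conflict graph that is not a string graph

The graph `subdividedK5` obtained from `K₅` by subdividing every edge once is the conflict graph of
an explicit plane drawing, and it is not a string graph.
-/

namespace Pool.Agent.Results.MP_b1730f_co.SubdividedK5

open Pool.Agent.ConfStr48

/-- There is a conflict graph that is not a string graph: the graph obtained from `K₅` by
subdividing every edge once is a conflict graph but not a string graph. -/
theorem result : IsConflictGraph subdividedK5 ∧ ¬ IsStringGraph subdividedK5 :=
  ⟨isConflictGraph, not_isStringGraph⟩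

end Pool.Agent.Results.MP_b1730f_co.SubdividedK5
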